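import Pool.Agent.Run7.h35.EX.Stm

/-! Project EX (helper35), piece B (helper216). -/

set_option autoImplicit false
open scoped BigOperators

namespace Run7.h216.EX

open Run7.h35.EX

theorem av_mono {T : Type} [Fintype T] {f g : T → ℝ} (h : ∀ t, f t ≤ g t) : av f ≤ av g := by
  unfold av
  exact div_le_div_of_nonneg_right (Finset.sum_le_sum fun t _ => h t) (Nat.cast_nonneg _)

theorem av_mul {T : Type} [Fintype T] (c : ℝ) (f : T → ℝ) : av (fun t => c * f t) = c * av f := by
  unfold av
  rw [← Finset.mul_sum, mul_div_assoc]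

theorem av_nonneg {T : Type} [Fintype T] {f : T → ℝ} (h : ∀ t, 0 ≤ f t) : 0 ≤ av f := by
  unfold av
  exact div_nonneg (Finset.sum_nonneg fun t _ => h t) (Nat.cast_nonneg _)

theorem t_B : S_B := by
  intro V ι _ _ _ _ t ht a ha
  have hpsi : ∀ x, 0 ≤ psi a x := fun x => av_nonneg fun j => Real.sqrt_nonneg _
  have key : ∀ x j, psi a x * Real.sqrt |csing t a x j| ≤ (1 / t) * |a x j| := by
    intro x j
    by_cases h : |a x j| ≤ (t * psi a x) ^ 2
    · have h1 : csing t a x j = 0 := by
        unfold csing breg
        rw [if_pos h, sub_self]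
      rw [h1, abs_zero, Real.sqrt_zero, mul_zero]
      positivity
    · have h1 : csing t a x j = a x j := by
        unfold csing breg
        rw [if_neg h, sub_zero]
      rw [h1]
      push Not at h
      have h2 : t * psi a x ≤ Real.sqrt |a x j| := by
        rw [← Real.sqrt_sq (mul_nonneg ht.le (hpsi x))]
        exact Real.sqrt_le_sqrt h.le
      have h3 : psi a x ≤ (1 / t) * Real.sqrt |a x j| := by
        rw [one_div, inv_mul_eq_div, le_div_iff₀ ht, mul_comm]
        exact h2
      calc psi a x * Real.sqrt |a x j| ≤ ((1 / t) * Real.sqrt |a x j|) * Real.sqrt |a x j| :=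
            mul_le_mul_of_nonneg_right h3 (Real.sqrt_nonneg _)
        _ = (1 / t) * |a x j| := by
            rw [mul_assoc, Real.mul_self_sqrt (abs_nonneg _)]
  have h1 : ∀ x, psi a x * (av fun j => Real.sqrt |csing t a x j|) ≤
      (1 / t) * av fun j => |a x j| := by
    intro x
    rw [← av_mul, ← av_mul]
    exact av_mono fun j => key x j
  calc (av fun x => psi a x * av fun j => Real.sqrt |csing t a x j|)
      ≤ av fun x => (1 / t) * av fun j => |a x j| := av_mono h1
    _ = (1 / t) * nrm1 a := by
        rw [av_mul]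
        rfl
    _ ≤ (1 / t) * 1 := mul_le_mul_of_nonneg_left ha (by positivity)
    _ = 1 / t := mul_one _

end Run7.h216.EX
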